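import Mathlib
import Pool.Agent.H479R3.WijBase
import Pool.Agent.Y586.WH.Sub
import Pool.Agent.Y586.WH.Pseudo
import Pool.Agent.Y586.WH.Fam

/-!
# Completeness properties of hyperspaces with topologies of infimum functionals
-/

set_option autoImplicit false

universe u

namespace Pool.Agent.Results.MP_091b66_gt.InfimumTopologies

open Set Topology Metric Pool.Agent.H479R3.Ams Pool.Agent.Y586.WH

/-- For a set `Φ` of real functions on `X` let `Hyp Φ` be the set of nonempty closed subsets of `X`
with the weakest topology for which all maps `A ↦ inf φ(A)`, `φ ∈ Φ`, are continuous, and let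
`Adm Φ` mean that the members of `Φ` are continuous and bounded below and that the sets `{φ < r}`
contain a base of `X`.
(1) If a `T1` space `X` is pseudocomplete and `Adm Φ`, then `Hyp Φ` is pseudocomplete.
(2) If a metrizable space `X` is subcompact and `Adm Φ`, then `Hyp Φ` is subcompact.
(3) For every metric space the functions `d(x, ·)` satisfy `Adm`, and the topology is the Wijsman
topology: this is the positive answer to (a) and (b) of Q1.
(4) For every family of sets containing the singletons, `Adm` holds for the functions `d(·, E)`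
(gap topologies). (5) It holds for the functions `d(x, ·)` for all metrics `d` in a nonempty set of
compatible metrics. (6) In a Tychonoff space it holds for the continuous functions into `[0, 1]`,
and (7) in a normal `T1` space these functions induce the Vietoris topology.
(8) There is a base-compact metric space whose Wijsman hyperspace is not base-compact. -/
theorem result :
    (∀ (X : Type u) [TopologicalSpace X] [T1Space X] (Φ : Set (X → ℝ)), Adm Φ →
      Pseudocomplete X → Pseudocomplete (Hyp Φ)) ∧
    (∀ (X : Type u) [MetricSpace X] (Φ : Set (X → ℝ)), Adm Φ →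
      Subcompact X → Subcompact (Hyp Φ)) ∧
    (∀ (X : Type u) [MetricSpace X], Adm (wijsman X) ∧
      (weakTopology (wijsman X) : TopologicalSpace {A : Set X // IsClosed A ∧ A.Nonempty}) =
        Pool.Agent.H479R3.Wij.wijsmanTopology X) ∧
    (∀ (X : Type u) [MetricSpace X] (𝒟 : Set (Set X)), (∀ x : X, {x} ∈ 𝒟) → Adm (gaps 𝒟)) ∧
    (∀ (X : Type u) [t : TopologicalSpace X] (M : Set (MetricSpace X)), M.Nonempty →
      (∀ m ∈ M, m.toUniformSpace.toTopologicalSpace = t) → Adm (wijsmanMany M)) ∧
    (∀ (X : Type u) [TopologicalSpace X] [T1Space X] [CompletelyRegularSpace X],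
      Adm (unitFunctions X)) ∧
    (∀ (X : Type u) [TopologicalSpace X] [T1Space X] [NormalSpace X],
      weakTopology (unitFunctions X) = vietoris (unitFunctions X)) ∧
    (∃ (X : Type) (_ : MetricSpace X), BaseCompact X ∧ ¬ BaseCompact (Hyp (wijsman X))) := by
  refine ⟨fun X _ _ Φ hΦ h => pseudocomplete hΦ h, fun X _ Φ hΦ h => subcompact hΦ h,
    fun X _ => ⟨adm_wijsman X, weak_eq_wijsman X⟩, fun X _ 𝒟 h1 => adm_gaps h1,
    fun X t M hne hM => adm_wijsmanMany hne hM, fun X _ _ _ => adm_unitFunctions X,
    fun X _ _ _ => weak_eq_vietoris X,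
    Pool.Agent.H479R3.WijBase.Pt, inferInstance, Pool.Agent.H479R3.WijBase.baseCompact, ?_⟩
  intro h
  apply Pool.Agent.H479R3.WijBase.not_baseCompact
  have h' : @BaseCompact {A : Set Pool.Agent.H479R3.WijBase.Pt // IsClosed A ∧ A.Nonempty}
    (weakTopology (wijsman Pool.Agent.H479R3.WijBase.Pt)) := h
  rw [weak_eq_wijsman] at h'
  exact h'

end Pool.Agent.Results.MP_091b66_gt.InfimumTopologies
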